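import Pool.Agent.K1H53.EX.Plan2

/-! # The energy inequality -/

set_option autoImplicit false

open MeasureTheory Filter Topology

namespace Pool.Agent.K1H45.EX

open Pool.Agent.K1H53.EX

section

variable {S : Type} [Fintype S] [DecidableEq S] [TopologicalSpace S] [DiscreteTopology S]

/-- The square field restricted to a finite set of pairs. -/
noncomputable def Gam (a : S × S → S × S) (p : ℤ → ℝ) (F : Finset (ℤ × ℤ)) (g : C(ℤ → S, ℝ)) :
    C(ℤ → S, ℝ) :=
  ∑ q ∈ F, p (q.2 - q.1) • ((compL (TC a q.1 q.2) g - g) * (compL (TC a q.1 q.2) g - g))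

theorem Gam_apply (a : S × S → S × S) (p : ℤ → ℝ) (F : Finset (ℤ × ℤ)) (g : C(ℤ → S, ℝ))
    (η : ℤ → S) :
    Gam a p F g η = ∑ q ∈ F, p (q.2 - q.1) * (g (T a q.1 q.2 η) - g η) ^ 2 := by
  unfold Gam
  rw [ContinuousMap.sum_apply]
  refine Finset.sum_congr rfl fun q _ => ?_
  simp only [ContinuousMap.smul_apply, ContinuousMap.mul_apply, ContinuousMap.sub_apply, smul_eq_mul]
  have : compL (TC a q.1 q.2) g η = g (T a q.1 q.2 η) := rfl
  rw [this]; ring

theorem LF_apply (a : S × S → S × S) (p : ℤ → ℝ) (F : Finset (ℤ × ℤ)) (g : C(ℤ → S, ℝ))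
    (η : ℤ → S) :
    LF a p F g η = ∑ q ∈ F, p (q.2 - q.1) * (g (T a q.1 q.2 η) - g η) := by
  unfold LF
  rw [_root_.sum_apply, ContinuousMap.sum_apply]
  refine Finset.sum_congr rfl fun q _ => ?_
  rfl

theorem LF_sq (a : S × S → S × S) (p : ℤ → ℝ) (F : Finset (ℤ × ℤ)) (g : C(ℤ → S, ℝ)) :
    LF a p F (g * g) - (LF a p F g * g + g * LF a p F g) = Gam a p F g := by
  ext η
  rw [Gam_apply]
  simp only [ContinuousMap.sub_apply, ContinuousMap.add_apply, ContinuousMap.mul_apply, LF_apply]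
  rw [Finset.sum_mul, Finset.mul_sum, ← Finset.sum_add_distrib, ← Finset.sum_sub_distrib]
  refine Finset.sum_congr rfl fun q _ => ?_
  ring

theorem Gam_cont (a : S × S → S × S) (p : ℤ → ℝ) (F : Finset (ℤ × ℤ)) :
    Continuous (Gam a p F) := by
  unfold Gam
  refine continuous_finsetSum _ fun q _ => ?_
  have h1 : Continuous fun g : C(ℤ → S, ℝ) => compL (TC a q.1 q.2) g - g :=
    (compL (TC a q.1 q.2)).continuous.sub continuous_id
  exact (h1.mul h1).const_smul (p (q.2 - q.1))

theorem Gam_nonneg (a : S × S → S × S) (p : ℤ → ℝ) (hp : ∀ m, 0 ≤ p m) (F : Finset (ℤ × ℤ))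
    (g : C(ℤ → S, ℝ)) (η : ℤ → S) : 0 ≤ Gam a p F g η := by
  rw [Gam_apply]
  exact Finset.sum_nonneg fun q _ => mul_nonneg (hp _) (sq_nonneg _)

theorem Gam_mono (a : S × S → S × S) (p : ℤ → ℝ) (hp : ∀ m, 0 ≤ p m) {F G : Finset (ℤ × ℤ)}
    (h : F ⊆ G) (g : C(ℤ → S, ℝ)) (η : ℤ → S) : Gam a p F g η ≤ Gam a p G g η := by
  rw [Gam_apply, Gam_apply]
  exact Finset.sum_le_sum_of_subset_of_nonneg h fun q _ _ => mul_nonneg (hp _) (sq_nonneg _)

theorem Gam_norm (a : S × S → S × S) (p : ℤ → ℝ) (hp : ∀ m, 0 ≤ p m) (F : Finset (ℤ × ℤ))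
    (g : C(ℤ → S, ℝ)) (c : ℝ) (hc : ‖g‖ ≤ c) :
    ‖Gam a p F g‖ ≤ ∑ q ∈ F, p (q.2 - q.1) * (2 * c) ^ 2 := by
  have h0 : 0 ≤ c := (norm_nonneg _).trans hc
  refine (ContinuousMap.norm_le _ (Finset.sum_nonneg fun q _ =>
    mul_nonneg (hp _) (sq_nonneg _))).2 fun η => ?_
  rw [Real.norm_of_nonneg (Gam_nonneg a p hp F g η), Gam_apply]
  refine Finset.sum_le_sum fun q _ => mul_le_mul_of_nonneg_left ?_ (hp _)
  rw [sq_le_sq, abs_of_nonneg (by positivity : 0 ≤ 2 * c)]
  have h1 := (g.norm_coe_le_norm (T a q.1 q.2 η)).trans hc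
  have h2 := (g.norm_coe_le_norm η).trans hc
  rw [Real.norm_eq_abs] at h1 h2
  rw [abs_le] at h1 h2 ⊢
  constructor <;> linarith [h1.1, h1.2, h2.1, h2.2]

end

section

variable {X : Type} [TopologicalSpace X] [CompactSpace X] [MeasurableSpace X]
  [OpensMeasurableSpace X]

/-- Integration against a probability measure. -/
noncomputable def Phi (μ : Measure X) [IsProbabilityMeasure μ] : C(X, ℝ) →L[ℝ] ℝ :=
  LinearMap.mkContinuous
    { toFun := fun f => ∫ η, f η ∂μ
      map_add' := fun f g => by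
        simp only [ContinuousMap.add_apply]
        exact integral_add (f.continuous.integrable_of_hasCompactSupport
          (HasCompactSupport.of_compactSpace f)) (g.continuous.integrable_of_hasCompactSupport
          (HasCompactSupport.of_compactSpace g))
      map_smul' := fun c f => by
        simp only [ContinuousMap.smul_apply, smul_eq_mul, RingHom.id_apply]
        exact integral_const_mul c _ } 1 (fun f => by
      simp only [LinearMap.coe_mk, AddHom.coe_mk, one_mul]
      have h := norm_integral_le_of_norm_le_const (μ := μ) (f := fun η => f η) (C := ‖f‖)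
        (Eventually.of_forall fun η => f.norm_coe_le_norm η)
      simpa using h)

theorem Phi_apply (μ : Measure X) [IsProbabilityMeasure μ] (f : C(X, ℝ)) :
    Phi μ f = ∫ η, f η ∂μ := rfl

theorem Phi_nonneg (μ : Measure X) [IsProbabilityMeasure μ] (f : C(X, ℝ)) (h : ∀ η, 0 ≤ f η) :
    0 ≤ Phi μ f := by
  rw [Phi_apply]; exact integral_nonneg h

theorem Phi_norm (μ : Measure X) [IsProbabilityMeasure μ] (f : C(X, ℝ)) : ‖Phi μ f‖ ≤ ‖f‖ := by
  rw [Phi_apply]
  have h := norm_integral_le_of_norm_le_const (μ := μ) (f := fun η => f η) (C := ‖f‖)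
    (Eventually.of_forall fun η => f.norm_coe_le_norm η)
  simpa using h

end

section

variable {S : Type} [Fintype S] [DecidableEq S] [TopologicalSpace S] [DiscreteTopology S]
  [MeasurableSpace S] [BorelSpace S]

theorem ex_cont {V : Type} [NormedAddCommGroup V] [NormedSpace ℝ V] [CompleteSpace V]
    (L : V →L[ℝ] V) : Continuous fun t => ex L t :=
  continuous_iff_continuousAt.2 fun t => (ex_deriv L t).continuousAt

/-- The finite energy inequality. -/
theorem fin_energy (hC : S_PFC) (a : S × S → S × S) (p : ℤ → ℝ) (hp : ∀ m, 0 ≤ p m)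
    (μ : Measure (ℤ → S)) [IsProbabilityMeasure μ] (f : C(ℤ → S, ℝ)) {F G : Finset (ℤ × ℤ)}
    (hFG : F ⊆ G) (t₀ : ℝ) (ht₀ : 0 ≤ t₀) :
    ∫ t in (0:ℝ)..t₀, Phi μ (PF a p G (t₀ - t) (Gam a p F (PF a p G t f))) ≤
      Phi μ (PF a p G t₀ (f * f)) := by
  set L := LF a p G with hL
  have hexc : Continuous fun t => ex L t := ex_cont L
  have hA : ∀ t, HasDerivAt (fun t => ex L (t₀ - t)) (-(ex L (t₀ - t) * L)) t := fun t =>
    (ex_deriv L (t₀ - t)).comp_const_sub t₀ t
  have hg : ∀ t, HasDerivAt (fun t => ex L t f) (L (ex L t f)) t := fun t => ex_apply_deriv' L f t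
  have hh : ∀ t, HasDerivAt (fun t => Phi μ (ex L (t₀ - t) (ex L t f * ex L t f)))
      (-(Phi μ (ex L (t₀ - t) (Gam a p G (ex L t f))))) t := by
    intro t
    have h1 := (hA t).clm_apply ((hg t).mul (hg t))
    have h2 := (Phi μ).hasFDerivAt.comp_hasDerivAt t h1
    refine h2.congr_deriv ?_
    rw [← map_neg]
    congr 1
    rw [← LF_sq, ← hL, map_sub]
    rw [show ((fun t => ex L t f) * fun t => ex L t f) t = ex L t f * ex L t f from rfl]
    simp only [ContinuousLinearMap.neg_apply, ContinuousLinearMap.mul_apply]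
    abel
  have hcG : ∀ K : Finset (ℤ × ℤ), Continuous fun t =>
      Phi μ (ex L (t₀ - t) (Gam a p K (ex L t f))) := by
    intro K
    refine (Phi μ).continuous.comp ?_
    have e1 : Continuous fun t => ex L (t₀ - t) := hexc.comp (continuous_const.sub continuous_id)
    have e2 : Continuous fun t => Gam a p K (ex L t f) :=
      (Gam_cont a p K).comp (hexc.clm_apply continuous_const)
    exact e1.clm_apply e2
  have hint := intervalIntegral.integral_eq_sub_of_hasDerivAt (a := 0) (b := t₀)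
    (fun t _ => hh t) ((hcG G).neg.intervalIntegrable _ _)
  rw [intervalIntegral.integral_neg] at hint
  have hmono : ∫ t in (0:ℝ)..t₀, Phi μ (ex L (t₀ - t) (Gam a p F (ex L t f))) ≤
      ∫ t in (0:ℝ)..t₀, Phi μ (ex L (t₀ - t) (Gam a p G (ex L t f))) := by
    refine intervalIntegral.integral_mono_on ht₀ ((hcG F).intervalIntegrable _ _)
      ((hcG G).intervalIntegrable _ _) fun t ht => ?_
    have hpos := (hC S a p hp G (t₀ - t) (by linarith [ht.2])).2.2.1
      (Gam a p G (ex L t f) - Gam a p F (ex L t f)) (fun η => by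
        rw [ContinuousMap.sub_apply]
        linarith [Gam_mono a p hp hFG (ex L t f) η])
    have h3 := Phi_nonneg μ _ hpos
    rw [map_sub, map_sub] at h3
    have h4 : PF a p G (t₀ - t) = ex L (t₀ - t) := rfl
    rw [h4] at h3
    linarith
  have hend : 0 ≤ Phi μ (ex L (t₀ - t₀) (ex L t₀ f * ex L t₀ f)) := by
    rw [sub_self, ex_zero]
    exact Phi_nonneg μ _ fun η => mul_self_nonneg _
  have hstart : Phi μ (ex L (t₀ - 0) (ex L 0 f * ex L 0 f)) = Phi μ (ex L t₀ (f * f)) := by
    rw [sub_zero, ex_zero]; rfl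
  have hPF : ∀ t, PF a p G t = ex L t := fun _ => rfl
  simp only [hPF]
  linarith [hint, hmono, hend, hstart]

theorem t_EN (hC : S_PFC) : S_EN := by
  intro S _ _ _ _ _ _ a p P μ hp hP hμ hInv f F t₀ ht₀
  have := hμ
  -- convergence of `PF_G s u_G`
  have hconv : ∀ (s : ℝ), 0 ≤ s → ∀ (u : Finset (ℤ × ℤ) → C(ℤ → S, ℝ)) (v : C(ℤ → S, ℝ)),
      Tendsto u atTop (𝓝 v) → Tendsto (fun G => PF a p G s (u G)) atTop (𝓝 (P s v)) := by
    intro s hs u v huv
    have h1 := hP.lim s hs v
    have h2 : Tendsto (fun G => PF a p G s (u G - v)) atTop (𝓝 0) := by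
      refine squeeze_zero_norm (fun G => (hC S a p hp G s hs).2.1 _) ?_
      have h3 := (huv.sub_const v).norm
      simpa using h3
    have h4 := h2.add h1
    simpa using h4
  have hinvΦ : ∀ s, 0 ≤ s → ∀ v : C(ℤ → S, ℝ), Phi μ (P s v) = Phi μ v := fun s hs v =>
    hInv s hs v
  have hlimR : Tendsto (fun G => Phi μ (PF a p G t₀ (f * f))) atTop (𝓝 (Phi μ (f * f))) := by
    have h1 := ((Phi μ).continuous.tendsto _).comp (hP.lim t₀ ht₀ (f * f))
    rw [hinvΦ t₀ ht₀] at h1
    exact h1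
  have hlimL : Tendsto (fun G => ∫ t in (0:ℝ)..t₀,
      Phi μ (PF a p G (t₀ - t) (Gam a p F (PF a p G t f)))) atTop
      (𝓝 (∫ t in (0:ℝ)..t₀, Phi μ (Gam a p F (P t f)))) := by
    refine intervalIntegral.tendsto_integral_filter_of_dominated_convergence
      (fun _ => ∑ q ∈ F, p (q.2 - q.1) * (2 * ‖f‖) ^ 2) ?_ ?_ ?_ ?_
    · refine Eventually.of_forall fun G => ?_
      have hexc : Continuous fun t => ex (LF a p G) t := ex_cont _
      have e1 : Continuous fun t => ex (LF a p G) (t₀ - t) :=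
        hexc.comp (continuous_const.sub continuous_id)
      have e2 : Continuous fun t => Gam a p F (ex (LF a p G) t f) :=
        (Gam_cont a p F).comp (hexc.clm_apply continuous_const)
      exact ((Phi μ).continuous.comp (e1.clm_apply e2)).aestronglyMeasurable
    · refine Eventually.of_forall fun G => Eventually.of_forall fun t ht => ?_
      rw [Set.uIoc_of_le ht₀] at ht
      refine (Phi_norm μ _).trans (((hC S a p hp G (t₀ - t) (by linarith [ht.2])).2.1 _).trans ?_)
      exact Gam_norm a p hp F _ _ ((hC S a p hp G t ht.1.le).2.1 f)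
    · exact intervalIntegrable_const
    · refine Eventually.of_forall fun t ht => ?_
      rw [Set.uIoc_of_le ht₀] at ht
      have h1 : Tendsto (fun G => Gam a p F (PF a p G t f)) atTop (𝓝 (Gam a p F (P t f))) :=
        ((Gam_cont a p F).tendsto _).comp (hP.lim t ht.1.le f)
      have h2 := hconv (t₀ - t) (by linarith [ht.2]) _ _ h1
      have h3 := ((Phi μ).continuous.tendsto _).comp h2
      rw [hinvΦ (t₀ - t) (by linarith [ht.2])] at h3
      exact h3
  have hfin : ∀ᶠ G in atTop, ∫ t in (0:ℝ)..t₀,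
      Phi μ (PF a p G (t₀ - t) (Gam a p F (PF a p G t f))) ≤ Phi μ (PF a p G t₀ (f * f)) :=
    (eventually_ge_atTop F).mono fun G hG => fin_energy hC a p hp μ f hG t₀ ht₀
  have hmain := le_of_tendsto_of_tendsto hlimL hlimR hfin
  have hR : Phi μ (f * f) = ∫ η, (f η) ^ 2 ∂μ := by
    rw [Phi_apply]
    refine integral_congr_ae (Eventually.of_forall fun η => ?_)
    simp only [ContinuousMap.mul_apply]; ring
  have hLeq : (fun t => Phi μ (Gam a p F (P t f))) = fun t => ∑ q ∈ F, p (q.2 - q.1) *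
      ∫ η, (P t f (T a q.1 q.2 η) - P t f η) ^ 2 ∂μ := by
    funext t
    rw [Phi_apply]
    simp only [Gam_apply]
    rw [integral_finsetSum _ fun q _ => ?_]
    · refine Finset.sum_congr rfl fun q _ => ?_
      rw [integral_const_mul]
    · have hc : Continuous fun η => p (q.2 - q.1) * (P t f (T a q.1 q.2 η) - P t f η) ^ 2 :=
        continuous_const.mul ((((P t f).continuous.comp (continuous_T a q.1 q.2)).sub
          (P t f).continuous).pow 2)
      exact hc.integrable_of_hasCompactSupport (HasCompactSupport.of_compactSpace _)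
  rw [hR, hLeq] at hmain
  exact hmain

end

end Pool.Agent.K1H45.EX
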